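import Pool.Agent.H3.BI.Stm2
import Pool.Graph.R_pool_sql_team_seeded_efc1946e.Results.MP_1354f0_pr.EveryTime

set_option autoImplicit false

open scoped ENNReal
open Finset MeasureTheory
open Pool.Agent.H3.BI

namespace Pool.Agent.H98.BD

open Pool.Agent.Results.MP_1354f0_pr (EveryTime.Conf)

/-- translation of the configurations -/
def tr3 (c : Conf 3) : EveryTime.Conf := ⟨c.agg, c.moving⟩

theorem tr3_inj : Function.Injective tr3 := by
  rintro ⟨a, l⟩ ⟨a', l'⟩ h
  simp only [tr3, EveryTime.Conf.mk.injEq] at h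
  rw [h.1, h.2]

theorem arrive_tr3 (c : Conf 3) (y : Site 3) :
    Pool.Agent.Results.MP_1354f0_pr.EveryTime.arrive (tr3 c) y = tr3 (arrive c y) := by
  unfold Pool.Agent.Results.MP_1354f0_pr.EveryTime.arrive arrive tr3
  split_ifs <;> rfl

theorem steps_tr3 (x : Site 3) (k : ℕ) : ∀ c : Conf 3,
    Pool.Agent.Results.MP_1354f0_pr.EveryTime.steps x k (tr3 c) = (stepsP x k c).map tr3 := by
  induction k with
  | zero =>
    intro c
    show PMF.pure (tr3 c) = (PMF.pure c).map tr3
    rw [PMF.pure_map]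
  | succ k ih =>
    intro c
    show ((PMF.uniformOfFintype (Fin 3 × Bool)).bind fun e =>
        Pool.Agent.Results.MP_1354f0_pr.EveryTime.steps x k
          (Pool.Agent.Results.MP_1354f0_pr.EveryTime.arrive (tr3 c) (x + uvec e))) =
      ((PMF.uniformOfFintype (Fin 3 × Bool)).bind fun e =>
        stepsP x k (arrive c (x + uvec e))).map tr3
    rw [PMF.map_bind]
    congr 1
    funext e
    rw [arrive_tr3, ih]

theorem ring_tr3 (ν : PMF ℕ) (c : Conf 3) :
    Pool.Agent.Results.MP_1354f0_pr.EveryTime.ring ν (tr3 c) = (ring ν c).map tr3 := by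
  unfold Pool.Agent.Results.MP_1354f0_pr.EveryTime.ring ring
  by_cases h : c.moving = []
  · have h' : (tr3 c).moving = [] := h
    rw [dif_pos h, dif_pos h', PMF.pure_map]
  · have h' : ¬ (tr3 c).moving = [] := h
    rw [dif_neg h, dif_neg h', PMF.map_bind]
    show (PMF.uniformOfFinset (Finset.range c.moving.length) _).bind _ = _
    congr 1
    funext i
    rw [PMF.map_bind]
    congr 1
    funext k
    exact steps_tr3 _ k ⟨c.agg, c.moving.eraseIdx i⟩

theorem rings_tr3 (ν : PMF ℕ) (c : Conf 3) (n : ℕ) :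
    Pool.Agent.Results.MP_1354f0_pr.EveryTime.rings ν (tr3 c) n = (rings ν c n).map tr3 := by
  induction n with
  | zero =>
    show PMF.pure (tr3 c) = (PMF.pure c).map tr3
    rw [PMF.pure_map]
  | succ n ih =>
    show (Pool.Agent.Results.MP_1354f0_pr.EveryTime.rings ν (tr3 c) n).bind
      (Pool.Agent.Results.MP_1354f0_pr.EveryTime.ring ν) = ((rings ν c n).bind (ring ν)).map tr3
    rw [ih, PMF.map_bind, PMF.bind_map]
    congr 1
    funext c'
    exact ring_tr3 ν c'

theorem launch_tr3 (ν : PMF ℕ) (A B : Finset (Site 3)) :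
    launch ν A B = Pool.Agent.Results.MP_1354f0_pr.EveryTime.launch ν A B := by
  unfold launch Pool.Agent.Results.MP_1354f0_pr.EveryTime.launch
  refine iSup_congr fun n => ?_
  have h := rings_tr3 ν ⟨A, [0]⟩ n
  have h2 : Pool.Agent.Results.MP_1354f0_pr.EveryTime.rings ν ⟨A, [0]⟩ n ⟨B, []⟩ =
      ((rings ν ⟨A, [0]⟩ n).map tr3) (tr3 ⟨B, []⟩) := by
    rw [← h]
    rfl
  rw [h2, PMF.map_apply, tsum_eq_single (⟨B, []⟩ : Conf 3)]
  · rw [if_pos rfl]
  · intro c hc
    rw [if_neg]
    intro h3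
    exact hc (tr3_inj h3).symm

theorem toE {ν : PMF ℕ} {Ω : Type} [MeasurableSpace Ω] {P : Measure Ω}
    {X : ℕ → Ω → Finset (Site 3)} (h : IsBIDLA ν P X) :
    Pool.Agent.Results.MP_1354f0_pr.EveryTime.IsBIDLA ν P X where
  prob := h.prob
  meas := h.meas
  start := h.start
  markov t a ht := by rw [← launch_tr3]; exact h.markov t a ht

theorem rad_eq (t : ℕ) : rad 3 t = Pool.Agent.Results.MP_1354f0_pr.EveryTime.radius t := by
  have hom : om 3 = 4 * Real.pi / 3 := by
    unfold om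
    rw [EuclideanSpace.volume_ball_fin_three]
    rw [ENNReal.ofReal_one, one_pow, one_mul, ENNReal.toReal_ofReal (by positivity)]
    ring
  unfold rad Pool.Agent.Results.MP_1354f0_pr.EveryTime.radius
  rw [hom]
  congr 1
  have := Real.pi_pos
  field_simp

theorem inner_eq (t : ℕ) (A : Finset (Site 3)) :
    innerDev t A = Pool.Agent.Results.MP_1354f0_pr.EveryTime.innerDev t A := by
  unfold innerDev Pool.Agent.Results.MP_1354f0_pr.EveryTime.innerDev
  rw [rad_eq]
  rfl

theorem outer_eq (t : ℕ) (A : Finset (Site 3)) :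
    outerDev t A = Pool.Agent.Results.MP_1354f0_pr.EveryTime.outerDev t A := by
  unfold outerDev Pool.Agent.Results.MP_1354f0_pr.EveryTime.outerDev
  rw [rad_eq]
  rfl

theorem t_LB3 : S_LB3 := by
  intro ν hν
  obtain ⟨c₂, t₀, hc₂, h2⟩ := (Pool.Agent.Results.MP_1354f0_pr.EveryTime.result ν
    ⟨hν.mean, hν.var, hν.expo⟩).2
  obtain ⟨c₁, hc₁, h1⟩ := Pool.Agent.K1H53.BI.c_io ν ⟨hν.mean, hν.var, hν.expo⟩
  refine ⟨min c₁ c₂, lt_min hc₁ hc₂, fun Ω mΩ P X hX => ?_⟩
  have hE := toE hX
  have hs : ∀ t : ℕ, 0 ≤ Real.sqrt (rad 3 t) := fun t => Real.sqrt_nonneg _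
  constructor
  · filter_upwards [h1 Ω mΩ P X (Pool.Agent.Results.MP_1354f0_pr.EveryTime.toB hE)] with ω hω
    refine ⟨hω.1.mono fun t ht => ?_, hω.2.mono fun t ht => ?_⟩
    · rw [outer_eq, Pool.Agent.Results.MP_1354f0_pr.EveryTime.outer_eq]
      refine le_trans (mul_le_mul_of_nonneg_right (min_le_left _ _) (hs t)) ?_
      rw [rad_eq]
      exact ht
    · rw [inner_eq, Pool.Agent.Results.MP_1354f0_pr.EveryTime.inner_eq]
      refine le_trans (mul_le_mul_of_nonneg_right (min_le_left _ _) (hs t)) ?_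
      rw [rad_eq]
      exact ht
  · filter_upwards [Filter.eventually_ge_atTop t₀] with t ht
    obtain ⟨h3, h4⟩ := h2 Ω mΩ P X hE t ht
    refine ⟨le_trans (ENNReal.ofReal_le_ofReal (min_le_right _ _))
        (h3.trans (measure_mono fun ω hω => ?_)),
      le_trans (ENNReal.ofReal_le_ofReal (min_le_right _ _))
        (h4.trans (measure_mono fun ω hω => ?_))⟩
    · show _ ≤ innerDev t (X t ω)
      rw [inner_eq, rad_eq]
      exact le_trans (mul_le_mul_of_nonneg_right (min_le_right _ _) (Real.sqrt_nonneg _)) hω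
    · show _ ≤ outerDev t (X t ω)
      rw [outer_eq, rad_eq]
      exact le_trans (mul_le_mul_of_nonneg_right (min_le_right _ _) (Real.sqrt_nonneg _)) hω

end Pool.Agent.H98.BD
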