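import Pool.Agent.H3.BI.Stm2

set_option autoImplicit false

open scoped ENNReal
open Finset MeasureTheory
open Pool.Agent.H3.BI

namespace Pool.Agent.H98.BD

theorem KD_eq_zero_of_not_subset (hB : S_BAS) {d : ℕ} (hd : 3 ≤ d) (ν : PMF ℕ)
    (D : Set (Site d)) (A B : Finset (Site d)) (h : ¬ A ⊆ B) :
    KD ν D (ind fun C => C = B) A = 0 := by
  unfold KD
  rw [ENNReal.iSup_eq_zero]
  intro n
  exact (hB d ν hd).2.2.2.2.2.1 D n A [0] B h

theorem t_SEG : S_SEG := by
  classical
  intro hB d ν R n
  induction n with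
  | zero =>
    intro f g hd hR h
    simp only [Eg]
    apply h
    · simp
    · intro x hx
      have : x = 0 := by simpa using hx
      subst this
      show nrm (0 : Site d) ≤ R 0
      have : nrm (0 : Site d) = 0 := by simp [nrm, nsq]
      rw [this]
      exact hR 0
  | succ n ih =>
    intro f g hd hR h
    simp only [Eg]
    apply ih _ _ hd hR
    intro A hA0 _
    rw [(hB d ν hd).2.2.2.1 (Bl d (R (n + 1))) (fun B => ind (fun B : Finset (Site d) =>
        (B : Set (Site d)) ⊆ Bl d (R (n + 1))) B * f B) A,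
      (hB d ν hd).2.2.2.1 (Bl d (R (n + 1))) (fun B => ind (fun B : Finset (Site d) =>
        (B : Set (Site d)) ⊆ Bl d (R (n + 1))) B * g B) A]
    apply ENNReal.tsum_le_tsum
    intro B
    by_cases hAB : A ⊆ B
    · by_cases hBD : (B : Set (Site d)) ⊆ Bl d (R (n + 1))
      · gcongr
        exact h B (hAB hA0) hBD
      · simp [ind, hBD]
    · rw [KD_eq_zero_of_not_subset hB hd ν _ A B hAB]
      simp

end Pool.Agent.H98.BD
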