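import Pool.Agent.H3.BI.Stm2

set_option autoImplicit false

open scoped ENNReal
open Finset MeasureTheory
open Pool.Agent.H3.BI

namespace Pool.Agent.H98.BD

theorem nrm_zero {d : ℕ} : nrm (0 : Site d) = 0 := by
  simp [nrm, nsq]

theorem nrm_add_uvec_le {d : ℕ} (x : Site d) (e : Dir d) : nrm (x + uvec e) ≤ nrm x + 1 := by
  classical
  have h0 : 0 ≤ nrm x := nrm_nonneg x
  have hs : nrm x ^ 2 = nsq x := nrm_sq x
  unfold nrm at *
  rw [Real.sqrt_le_left (by positivity)]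
  have h1 : nsq (x + uvec e) = nsq x + 2 * (if e.2 then 1 else -1) * (x e.1 : ℝ) + 1 := by
    unfold nsq uvec
    have : ∀ i, (((x + (Pi.single e.1 (if e.2 then (1:ℤ) else -1) : Site d)) i : ℤ) : ℝ) ^ 2 =
        (x i : ℝ) ^ 2 + (if i = e.1 then 2 * (if e.2 then 1 else -1) * (x i : ℝ) + 1 else 0) := by
      intro i
      by_cases hi : i = e.1
      · subst hi
        rw [Pi.add_apply, Pi.single_eq_same, if_pos rfl]
        cases e.2 <;> simp <;> ring
      · rw [Pi.add_apply, Pi.single_eq_of_ne hi]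
        simp [hi]
    simp_rw [this]
    rw [Finset.sum_add_distrib, Finset.sum_ite_eq' Finset.univ e.1, if_pos (Finset.mem_univ _)]
    ring
  have h2 : |(x e.1 : ℝ)| ≤ Real.sqrt (nsq x) := by
    rw [← Real.sqrt_sq_eq_abs]
    exact Real.sqrt_le_sqrt (Finset.single_le_sum (f := fun i => (x i : ℝ) ^ 2)
      (fun _ _ => sq_nonneg _) (Finset.mem_univ e.1))
  rw [abs_le] at h2
  rw [h1]
  split_ifs <;> nlinarith [h2.1, h2.2]

/-- The invariant. -/
def Inv {d : ℕ} (A : Finset (Site d)) (R : ℝ) (p : Cf d) : Prop :=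
  A ⊆ p.1 ∧ (∀ x ∈ p.1, x ∈ A ∨ nrm x ≤ R + 1) ∧ ∀ x ∈ p.2, nrm x ≤ R

theorem Inv_arr {d : ℕ} (A : Finset (Site d)) (R : ℝ) (p : Cf d) (y : Site d)
    (hp : Inv A R p) (hy : nrm y ≤ R + 1) : Inv A R (arr (Bl d R) y p) := by
  classical
  obtain ⟨h1, h2, h3⟩ := hp
  unfold arr
  split_ifs with h h'
  · refine ⟨h1, h2, ?_⟩
    intro x hx
    rcases List.mem_cons.1 hx with rfl | hx
    · exact h'
    · exact h3 x hx
  · exact ⟨h1, h2, h3⟩
  · refine ⟨h1.trans (Finset.subset_insert _ _), ?_, h3⟩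
    intro x hx
    rcases Finset.mem_insert.1 hx with rfl | hx
    · exact Or.inr hy
    · exact h2 x hx

theorem steps_ne_zero {d : ℕ} (A : Finset (Site d)) (R : ℝ) (x : Site d) (hx : nrm x ≤ R)
    (f : Cf d → ℝ≥0∞) : ∀ (k : ℕ) (p : Cf d), Inv A R p → steps (Bl d R) x k f p ≠ 0 →
      ∃ p', Inv A R p' ∧ f p' ≠ 0
  | 0, p, hp, h => ⟨p, hp, h⟩
  | k + 1, p, hp, h => by
    have h1 : (∑ e : Dir d, steps (Bl d R) x k f (arr (Bl d R) (x + uvec e) p)) ≠ 0 := by
      intro h0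
      apply h
      simp only [steps, h0, ENNReal.zero_div]
    obtain ⟨e, -, he⟩ := Finset.exists_ne_zero_of_sum_ne_zero h1
    exact steps_ne_zero A R x hx f k _
      (Inv_arr A R p _ hp ((nrm_add_uvec_le x e).trans (by linarith))) he

theorem Ph_ne_zero {d : ℕ} (ν : PMF ℕ) (A : Finset (Site d)) (R : ℝ)
    (f : Finset (Site d) → ℝ≥0∞) : ∀ (n : ℕ) (p : Cf d), Inv A R p →
      Ph ν (Bl d R) f n p ≠ 0 → ∃ p', Inv A R p' ∧ f p'.1 ≠ 0
  | n, (C, []), hp, h => ⟨(C, []), hp, by simpa using h⟩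
  | 0, (C, x :: L), hp, h => by simp at h
  | n + 1, (C, x :: L), hp, h => by
    rw [Ph_succ_cons] at h
    unfold top at h
    rw [ne_eq, ENNReal.tsum_eq_zero, not_forall] at h
    obtain ⟨k, hk⟩ := h
    have hk2 : steps (Bl d R) x k (Ph ν (Bl d R) f n) (C, L) ≠ 0 := by
      intro h0
      apply hk
      rw [h0, mul_zero]
    obtain ⟨p', hp', h'⟩ := steps_ne_zero A R x (hp.2.2 x (by simp)) _ k (C, L)
      ⟨hp.1, hp.2.1, fun y hy => hp.2.2 y (by simp [hy])⟩ hk2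
    exact Ph_ne_zero ν A R f n p' hp' h'

theorem t_SUP0 : S_SUP0 := by
  classical
  intro d ν R A B hd hR h
  unfold KD at h
  have h1 : ∃ n, Ph ν (Bl d R) (ind fun C => C = B) n (A, [0]) ≠ 0 := by
    by_contra hcon
    push Not at hcon
    apply h
    rw [ENNReal.iSup_eq_zero]
    exact hcon
  obtain ⟨n, hn⟩ := h1
  obtain ⟨p', hp', h'⟩ := Ph_ne_zero ν A R _ n (A, [0])
    ⟨Finset.Subset.refl _, fun x hx => Or.inl hx, by
      intro x hx
      rw [List.mem_singleton.1 hx, nrm_zero]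
      exact hR⟩ hn
  have : p'.1 = B := by
    by_contra hne
    apply h'
    simp [ind, hne]
  rw [← this]
  exact ⟨hp'.1, hp'.2.1⟩

end Pool.Agent.H98.BD
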